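import Pool.Agent.Q25.RSet

set_option autoImplicit false

/-!
# Primes `|n² + a|` with `n` in an arbitrary set, for almost all `a`

Let `S` be ANY set of natural numbers. The digits of `n < b ^ k` in base `b` are independent random variables with
arbitrary distributions, no digit having a probability larger than `1 - η` (for instance `n` may be uniformly distributed
below `b ^ k`, or a random integer with restricted digits). For almost all `a` the primes `|n² + a|` with `n` in `S` are as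
many as is predicted by the number of the `n` in `S` for which `n² + a` has no prime factor up to `z`, `z` being a power
of `k`, i.e. of `log n`.
-/

namespace Pool.Agent.Results.MP_391708_nt.ArbitrarySets

open Finset

/-- `w i d` is the probability that the digit number `i` is equal to `d`; no digit has a probability larger than
`1 - η` -/
structure Digits (b : ℕ) (η : ℝ) (w : ℕ → ℕ → ℝ) : Prop where
  nonneg : ∀ i d, 0 ≤ w i d
  sum : ∀ i, ∑ d ∈ range b, w i d = 1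
  le : ∀ i d, w i d ≤ 1 - η

/-- the probability of the integer `n < b ^ k`, the product of the probabilities of its digits -/
noncomputable def weight (b : ℕ) (w : ℕ → ℕ → ℝ) (k n : ℕ) : ℝ := ∏ i ∈ range k, w i (n / b ^ i % b)

open Classical in
/-- the probability that `n < b ^ k` has the property `T` -/
noncomputable def prob (b : ℕ) (w : ℕ → ℕ → ℝ) (k : ℕ) (T : ℕ → Prop) : ℝ :=
  ∑ n ∈ (range (b ^ k)).filter T, weight b w k n

/-- `n` is in `S` and `|n² + a|` is a prime -/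
def Hit (S : Set ℕ) (a : ℤ) (n : ℕ) : Prop := n ∈ S ∧ ((n : ℤ) ^ 2 + a).natAbs.Prime

open Classical in
/-- the expectation of `log |n² + a|`, counted only if `n` is in `S` and `|n² + a|` is a prime -/
noncomputable def R (b : ℕ) (w : ℕ → ℕ → ℝ) (k : ℕ) (S : Set ℕ) (a : ℤ) : ℝ :=
  ∑ n ∈ (range (b ^ k)).filter (Hit S a), weight b w k n * Real.log (((n : ℤ) ^ 2 + a).natAbs : ℝ)

/-- the primes up to `z` -/
def primes (z : ℕ) : Finset ℕ := (Icc 1 z).filter Nat.Prime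

/-- the prediction: the probability that `n` is in `S` and that `n² + a` is not zero and has no prime factor up to
`z`, divided by the product of `1 - 1 / p` over the primes `p ≤ z` -/
noncomputable def M (b : ℕ) (w : ℕ → ℕ → ℝ) (k z : ℕ) (S : Set ℕ) (a : ℤ) : ℝ :=
  (∏ p ∈ primes z, (1 - 1 / (p : ℝ)))⁻¹ *
    prob b w k (fun n => n ∈ S ∧ (n : ℤ) ^ 2 + a ≠ 0 ∧ ∀ p ∈ primes z, ¬ (p : ℤ) ∣ (n : ℤ) ^ 2 + a)

section aux
open Pool.Agent.TH872.Sq Pool.Agent.Q25.RDig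
open Pool.Agent.H373R2.T7 (pz Vz mem_pz)
open Classical

lemma val_eq (s : ℤ) (hs : s = 1 ∨ s = -1) (a : ℤ) (n : ℕ) (h : 1 ≤ qv s 0 n + s * a) :
    (qv s 0 n + s * a).toNat = ((n : ℤ) ^ 2 + a).natAbs := by
  unfold qv at h ⊢
  rcases hs with rfl | rfl
  · have e : (1 : ℤ) * (n : ℤ) ^ 2 + 0 * n + 1 * a = (n : ℤ) ^ 2 + a := by ring
    rw [e] at h ⊢
    omega
  · have e : (-1 : ℤ) * (n : ℤ) ^ 2 + 0 * n + -1 * a = -((n : ℤ) ^ 2 + a) := by ring
    rw [e] at h ⊢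
    omega

lemma qv_one (a : ℤ) (n : ℕ) : qv 1 0 n + 1 * a = (n : ℤ) ^ 2 + a := by unfold qv; ring
lemma qv_neg (a : ℤ) (n : ℕ) : qv (-1) 0 n + -1 * a = -((n : ℤ) ^ 2 + a) := by unfold qv; ring

lemma R_eq (b : ℕ) (w : ℕ → ℕ → ℝ) (k : ℕ) (S : Set ℕ) (a : ℤ) :
    R b w k S a = ES b w k S (fun _ : Fin 1 => 1) (fun _ => 0) (fun _ => 1 * a) +
      ES b w k S (fun _ : Fin 1 => -1) (fun _ => 0) (fun _ => -1 * a) := by
  unfold R ES
  simp only [Fin.prod_univ_one, forall_const, qv_one, qv_neg, sum_filter]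
  rw [← sum_add_distrib]
  apply sum_congr rfl
  intro n _
  unfold Hit P weight
  simp only [zero_add]
  obtain ⟨x, hx⟩ : ∃ x : ℤ, x = (n : ℤ) ^ 2 + a := ⟨_, rfl⟩
  simp only [← hx]
  by_cases hS : n ∈ S
  · simp only [hS, true_and]
    rcases le_total 0 x with h | h
    · have e1 : x.toNat = x.natAbs := by omega
      have e2 : (-x).toNat = 0 := by omega
      rw [e1, e2, if_neg Nat.not_prime_zero, add_zero]
      have e3 : ((x.natAbs : ℕ) : ℝ) = (x : ℝ) := by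
        have : ((x.natAbs : ℤ) : ℝ) = (x : ℝ) := by rw [Int.natAbs_of_nonneg h]
        rw [← this, Int.cast_natCast]
      rw [e3]
    · have e1 : (-x).toNat = x.natAbs := by omega
      have e2 : x.toNat = 0 := by omega
      rw [e1, e2, if_neg Nat.not_prime_zero, zero_add]
      have e3 : ((x.natAbs : ℕ) : ℝ) = ((-x : ℤ) : ℝ) := by
        have : ((x.natAbs : ℤ) : ℝ) = ((-x : ℤ) : ℝ) := by
          congr 1; omega
        rw [← this, Int.cast_natCast]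
      rw [e3]
  · simp only [hS, false_and, if_false, add_zero]

lemma dvd_natAbs' (p : ℕ) (x : ℤ) : p ∣ x.natAbs ↔ (p : ℤ) ∣ x := by
  rw [← Int.natCast_dvd]

lemma M_eq (b : ℕ) (w : ℕ → ℕ → ℝ) (k z : ℕ) (S : Set ℕ) (a : ℤ) :
    M b w k z S a = MS b w k z S (fun _ : Fin 1 => 1) (fun _ => 0) (fun _ => 1 * a) +
      MS b w k z S (fun _ : Fin 1 => -1) (fun _ => 0) (fun _ => -1 * a) := by
  unfold M MS prob
  simp only [forall_const, qv_one, qv_neg, sum_filter, pow_one]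
  have e0 : (∏ p ∈ primes z, (1 - 1 / (p : ℝ))) = Vz z := rfl
  rw [e0, ← mul_add, ← sum_add_distrib]
  congr 1
  apply sum_congr rfl
  intro n _
  unfold P weight
  simp only [zero_add]
  obtain ⟨x, hx⟩ : ∃ x : ℤ, x = (n : ℤ) ^ 2 + a := ⟨_, rfl⟩
  simp only [← hx]
  have e1 : primes z = pz z := rfl
  rw [e1]
  by_cases hS : n ∈ S
  · simp only [hS, true_and]
    rcases lt_trichotomy 0 x with h | h | h
    · have h1 : ¬ 1 ≤ -x := by omega
      have h2 : 1 ≤ x := by omega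
      have h3 : x.toNat = x.natAbs := by omega
      simp only [h1, h2, false_and, if_false, add_zero, true_and, h3, dvd_natAbs', h.ne', ne_eq, not_false_eq_true]
    · subst h
      norm_num
    · have h1 : ¬ 1 ≤ x := by omega
      have h2 : 1 ≤ -x := by omega
      have h3 : (-x).toNat = x.natAbs := by omega
      simp only [h1, h2, false_and, if_false, zero_add, true_and, h3, dvd_natAbs', h.ne, ne_eq, not_false_eq_true]
  · simp only [hS, false_and, if_false, add_zero]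

/-- the part with the wrong sign vanishes -/
lemma zero_part (b : ℕ) (w : ℕ → ℕ → ℝ) (k z : ℕ) (S : Set ℕ) (s : ℤ) (a : ℤ) (h : ∀ n < b ^ k, qv s 0 n + s * a ≤ 0) :
    ES b w k S (fun _ : Fin 1 => s) (fun _ => 0) (fun _ => s * a) = 0 ∧
    MS b w k z S (fun _ : Fin 1 => s) (fun _ => 0) (fun _ => s * a) = 0 ∧
    PS b w k S (fun _ : Fin 1 => s) (fun _ => 0) (fun _ => s * a) = 0 := by
  have h1 : (range (b ^ k)).filter (fun n => n ∈ S ∧ ∀ _j : Fin 1, (qv s 0 n + s * a).toNat.Prime) = ∅ := by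
    rw [filter_eq_empty_iff]
    intro n hn h2
    have h3 := h n (mem_range.1 hn)
    have h4 := (h2.2 0).pos
    omega
  have h2 : (range (b ^ k)).filter (fun n => n ∈ S ∧ ∀ _j : Fin 1, 1 ≤ qv s 0 n + s * a ∧
      ∀ p ∈ pz z, ¬ p ∣ (qv s 0 n + s * a).toNat) = ∅ := by
    rw [filter_eq_empty_iff]
    intro n hn h2
    have h3 := h n (mem_range.1 hn)
    have h4 := (h2.2 0).1
    omega
  refine ⟨?_, ?_, ?_⟩
  · unfold ES; rw [h1, sum_empty]
  · unfold MS; rw [h2, sum_empty, mul_zero]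
  · unfold PS; rw [h1, sum_empty]

lemma P_eq' (b : ℕ) (w : ℕ → ℕ → ℝ) (k : ℕ) (S : Set ℕ) (a : ℤ) :
    prob b w k (Hit S a) = PS b w k S (fun _ : Fin 1 => 1) (fun _ => 0) (fun _ => 1 * a) +
      PS b w k S (fun _ : Fin 1 => -1) (fun _ => 0) (fun _ => -1 * a) := by
  unfold prob PS
  simp only [forall_const, qv_one, qv_neg, sum_filter]
  rw [← sum_add_distrib]
  apply sum_congr rfl
  intro n _
  unfold Hit P weight
  simp only [zero_add]
  obtain ⟨x, hx⟩ : ∃ x : ℤ, x = (n : ℤ) ^ 2 + a := ⟨_, rfl⟩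
  simp only [← hx]
  by_cases hS : n ∈ S
  · simp only [hS, true_and]
    rcases le_total 0 x with h | h
    · have e1 : x.toNat = x.natAbs := by omega
      have e2 : (-x).toNat = 0 := by omega
      rw [e1, e2, if_neg Nat.not_prime_zero, add_zero]
    · have e1 : (-x).toNat = x.natAbs := by omega
      have e2 : x.toNat = 0 := by omega
      rw [e1, e2, if_neg Nat.not_prime_zero, zero_add]
  · simp only [hS, false_and, if_false, add_zero]

/-- one pair of signs, the expectation; `s` is the sign of the value, `t` the sign of `a` -/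
lemma one_exp (b : ℕ) (hb : 2 ≤ b) (η : ℝ) (hη : 0 < η) (F U : ℕ) (s t : ℤ) (hs : s = 1 ∨ s = -1) (ht : t = 1 ∨ t = -1) :
    ∃ B : ℕ, ∀ E : ℕ, ∃ K₀ : ℕ, ∀ k : ℕ, K₀ ≤ k → ∀ z : ℕ, (k : ℝ) ^ B ≤ z → (z : ℝ) ≤ (k : ℝ) ^ E →
    ∀ w : ℕ → ℕ → ℝ, Digits b η w → ∀ S : Set ℕ, ∀ X : ℕ, b ^ (2 * k) ≤ X → X ≤ F * b ^ (2 * k) →
    (((Icc 1 X).filter (fun c : ℕ =>
      1 / (k : ℝ) ^ U < |ES b w k S (fun _ : Fin 1 => s) (fun _ => 0) (fun _ => s * (t * (c : ℤ))) -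
        MS b w k z S (fun _ : Fin 1 => s) (fun _ => 0) (fun _ => s * (t * (c : ℤ)))|)).card : ℝ) ≤ (X : ℝ) / (k : ℝ) ^ U := by
  have hs0 : s ≠ 0 := by rcases hs with rfl | rfl <;> decide
  have hld : ld s 0 ≠ 0 := by unfold ld; rw [if_neg hs0]; exact hs0
  have hdg : dg s = 2 := dg_ne hs0
  obtain ⟨B, h1⟩ := set_exp b hb η hη 1 (fun _ => s) (fun _ => 0) (fun _ => hld) F U
  refine ⟨B, fun E => ?_⟩
  obtain ⟨K₀, h2⟩ := h1 E
  refine ⟨K₀, fun k hk z hz1 hz2 w hw S X hX1 hX2 => ?_⟩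
  have h3 := h2 k hk z hz1 hz2 w ⟨hw.nonneg, hw.sum, hw.le⟩ S
    (fun _ => s * t) (fun _ => by rcases hs with rfl | rfl <;> rcases ht with rfl | rfl <;> norm_num) (fun _ => X)
    (fun _ => by rw [hdg]; exact ⟨hX1, hX2⟩) (fun c => (fun c : ℕ =>
      1 / (k : ℝ) ^ U < |ES b w k S (fun _ : Fin 1 => s) (fun _ => 0) (fun _ => s * (t * (c : ℤ))) -
        MS b w k z S (fun _ : Fin 1 => s) (fun _ => 0) (fun _ => s * (t * (c : ℤ)))|) (c 0)) (by
      intro c _ hq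
      have h6 : (fun j : Fin 1 => s * t * (c j : ℤ)) = fun _ => s * (t * (c 0 : ℤ)) := by
        funext j; rw [Fin.eq_zero j, mul_assoc]
      rw [h6]
      exact hq)
  rw [card_one X (fun c : ℕ =>
      1 / (k : ℝ) ^ U < |ES b w k S (fun _ : Fin 1 => s) (fun _ => 0) (fun _ => s * (t * (c : ℤ))) -
        MS b w k z S (fun _ : Fin 1 => s) (fun _ => 0) (fun _ => s * (t * (c : ℤ)))|)] at h3
  simpa using h3

/-- one sign, the probability -/
lemma one_prob (b : ℕ) (hb : 2 ≤ b) (η : ℝ) (hη : 0 < η) (F U : ℕ) (ε : ℝ) (hε : 0 < ε) (s : ℤ) (hs : s = 1 ∨ s = -1) :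
    ∃ B : ℕ, ∀ E : ℕ, ∃ K₀ : ℕ, ∀ k : ℕ, K₀ ≤ k → ∀ z : ℕ, (k : ℝ) ^ B ≤ z → (z : ℝ) ≤ (k : ℝ) ^ E →
    ∀ w : ℕ → ℕ → ℝ, Digits b η w → ∀ S : Set ℕ, ∀ X : ℕ, b ^ (2 * k) ≤ X → X ≤ F * b ^ (2 * k) →
    (((Icc 1 X).filter (fun c : ℕ => (∀ n < b ^ k, 1 ≤ qv s 0 n + s * (s * (c : ℤ))) ∧
      ¬ |2 * k * Real.log b * PS b w k S (fun _ : Fin 1 => s) (fun _ => 0) (fun _ => s * (s * (c : ℤ))) -
        MS b w k z S (fun _ : Fin 1 => s) (fun _ => 0) (fun _ => s * (s * (c : ℤ)))| ≤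
        ε * MS b w k z S (fun _ : Fin 1 => s) (fun _ => 0) (fun _ => s * (s * (c : ℤ))) + 1 / (k : ℝ) ^ U)).card : ℝ) ≤
      (X : ℝ) / (k : ℝ) ^ U := by
  have hs0 : s ≠ 0 := by rcases hs with rfl | rfl <;> decide
  have hss : ∀ x : ℤ, s * (s * x) = x := by
    intro x
    rcases hs with rfl | rfl <;> ring
  have hld : ld s 0 ≠ 0 := by unfold ld; rw [if_neg hs0]; exact hs0
  have hdg : dg s = 2 := dg_ne hs0
  obtain ⟨B, h1⟩ := set_prob b hb η hη 1 (fun _ => s) (fun _ => 0) (fun _ => hld) F U ε hε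
  refine ⟨B, fun E => ?_⟩
  obtain ⟨K₀, h2⟩ := h1 E
  refine ⟨K₀, fun k hk z hz1 hz2 w hw S X hX1 hX2 => ?_⟩
  simp only [hss]
  have hLL : LL b k (fun _ : Fin 1 => s) = 2 * k * Real.log b := by
    unfold LL
    rw [Fin.prod_univ_one, hdg]
    norm_num
  have h3 := h2 k hk z hz1 hz2 w ⟨hw.nonneg, hw.sum, hw.le⟩ S
    (fun _ => 1) (fun _ => Or.inl rfl) (fun _ => X) (fun _ => by rw [hdg]; exact ⟨hX1, hX2⟩) (fun c => (fun c : ℕ =>
      (∀ n < b ^ k, 1 ≤ qv s 0 n + (c : ℤ)) ∧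
      ¬ |2 * k * Real.log b * PS b w k S (fun _ : Fin 1 => s) (fun _ => 0) (fun _ => (c : ℤ)) -
        MS b w k z S (fun _ : Fin 1 => s) (fun _ => 0) (fun _ => (c : ℤ))| ≤
        ε * MS b w k z S (fun _ : Fin 1 => s) (fun _ => 0) (fun _ => (c : ℤ)) + 1 / (k : ℝ) ^ U) (c 0)) (by
      intro c _ hq
      have h6 : (fun j : Fin 1 => 1 * (c j : ℤ)) = fun _ => (c 0 : ℤ) := by
        funext j; rw [Fin.eq_zero j, one_mul]
      rw [h6, hLL]
      refine ⟨fun j => by rw [Fin.eq_zero j]; simpa using hq.1, fun hh => hq.2 hh.2⟩)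
  rw [card_one X (fun c : ℕ =>
      (∀ n < b ^ k, 1 ≤ qv s 0 n + (c : ℤ)) ∧
      ¬ |2 * k * Real.log b * PS b w k S (fun _ : Fin 1 => s) (fun _ => 0) (fun _ => (c : ℤ)) -
        MS b w k z S (fun _ : Fin 1 => s) (fun _ => 0) (fun _ => (c : ℤ))| ≤
        ε * MS b w k z S (fun _ : Fin 1 => s) (fun _ => 0) (fun _ => (c : ℤ)) + 1 / (k : ℝ) ^ U)] at h3
  simpa using h3

lemma count_int (X : ℕ) (Q : ℤ → Prop) (P1 P2 : ℕ → Prop) [DecidablePred P1] [DecidablePred P2] (h1 : ∀ c : ℕ, 1 ≤ c → Q (1 * (c : ℤ)) → P1 c)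
    (h2 : ∀ c : ℕ, 1 ≤ c → Q (-1 * (c : ℤ)) → P2 c) :
    ({a : ℤ | |a| ≤ X ∧ a ≠ 0 ∧ Q a}.ncard : ℝ) ≤ (((Icc 1 X).filter P1).card : ℝ) + (((Icc 1 X).filter P2).card : ℝ) := by
  have hsub : {a : ℤ | |a| ≤ X ∧ a ≠ 0 ∧ Q a} ⊆
      ((((Icc 1 X).filter P1).image (fun c : ℕ => (c : ℤ)) ∪
      ((Icc 1 X).filter P2).image (fun c : ℕ => -(c : ℤ)) : Finset ℤ) : Set ℤ) := by
    intro a ha
    rw [Set.mem_ofPred_eq, abs_le] at ha
    obtain ⟨⟨ha1, ha2⟩, ha3, ha4⟩ := ha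
    rw [mem_coe, mem_union, mem_image, mem_image]
    rcases lt_or_gt_of_ne ha3 with h | h
    · right
      refine ⟨(-a).toNat, ?_, by omega⟩
      have e : (((-a).toNat : ℕ) : ℤ) = -a := by omega
      refine mem_filter.2 ⟨mem_Icc.2 ⟨by omega, by omega⟩, h2 _ (by omega) ?_⟩
      rw [e]
      have : -1 * -a = a := by ring
      rwa [this]
    · left
      refine ⟨a.toNat, ?_, by omega⟩
      have e : ((a.toNat : ℕ) : ℤ) = a := by omega
      refine mem_filter.2 ⟨mem_Icc.2 ⟨by omega, by omega⟩, h1 _ (by omega) ?_⟩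
      rw [e, one_mul]
      exact ha4
  have h3 := (Set.ncard_le_ncard hsub (finite_toSet _))
  rw [Set.ncard_coe_finset] at h3
  have h4 := h3.trans ((card_union_le _ _).trans (add_le_add card_image_le card_image_le))
  exact_mod_cast h4

lemma card_or (X : ℕ) (P1 P2 : ℕ → Prop) [DecidablePred P1] [DecidablePred P2] [DecidablePred (fun c => P1 c ∨ P2 c)] :
    (((Icc 1 X).filter (fun c => P1 c ∨ P2 c)).card : ℝ) ≤ (((Icc 1 X).filter P1).card : ℝ) + (((Icc 1 X).filter P2).card : ℝ) := by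
  have h : (Icc 1 X).filter (fun c => P1 c ∨ P2 c) ⊆ (Icc 1 X).filter P1 ∪ (Icc 1 X).filter P2 := by
    intro c hc
    rw [mem_filter] at hc
    rw [mem_union, mem_filter, mem_filter]
    tauto
  exact_mod_cast (card_le_card h).trans (card_union_le _ _)

theorem main_aux (b : ℕ) (hb : 2 ≤ b) (η : ℝ) (hη : 0 < η) (F U : ℕ) (ε : ℝ) (hε : 0 < ε) :
    ∃ B : ℕ, ∀ E : ℕ, ∃ K₀ : ℕ, ∀ k : ℕ, K₀ ≤ k → ∀ z : ℕ, (k : ℝ) ^ B ≤ z → (z : ℝ) ≤ (k : ℝ) ^ E →
    ∀ w : ℕ → ℕ → ℝ, Digits b η w → ∀ S : Set ℕ, ∀ X : ℕ, b ^ (2 * k) ≤ X → X ≤ F * b ^ (2 * k) →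
    ({a : ℤ | |a| ≤ X ∧ a ≠ 0 ∧ ¬ |R b w k S a - M b w k z S a| ≤ 1 / (k : ℝ) ^ U}.ncard : ℝ) ≤ (X : ℝ) / (k : ℝ) ^ U ∧
    ({a : ℤ | |a| ≤ X ∧ a ≠ 0 ∧ ((0 < a ∨ a ≤ -(b : ℤ) ^ (2 * k)) ∧
      ¬ |2 * k * Real.log b * prob b w k (Hit S a) - M b w k z S a| ≤ ε * M b w k z S a + 1 / (k : ℝ) ^ U)}.ncard : ℝ) ≤
      (X : ℝ) / (k : ℝ) ^ U := by
  obtain ⟨B1, h1⟩ := one_exp b hb η hη F (U + 2) 1 1 (Or.inl rfl) (Or.inl rfl)
  obtain ⟨B2, h2⟩ := one_exp b hb η hη F (U + 2) 1 (-1) (Or.inl rfl) (Or.inr rfl)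
  obtain ⟨B3, h3⟩ := one_exp b hb η hη F (U + 2) (-1) (-1) (Or.inr rfl) (Or.inr rfl)
  obtain ⟨B4, h4⟩ := one_prob b hb η hη F (U + 2) ε hε 1 (Or.inl rfl)
  obtain ⟨B5, h5⟩ := one_prob b hb η hη F (U + 2) ε hε (-1) (Or.inr rfl)
  refine ⟨B1 + B2 + B3 + B4 + B5, fun E => ?_⟩
  obtain ⟨K1, h1⟩ := h1 E
  obtain ⟨K2, h2⟩ := h2 E
  obtain ⟨K3, h3⟩ := h3 E
  obtain ⟨K4, h4⟩ := h4 E
  obtain ⟨K5, h5⟩ := h5 E
  refine ⟨K1 + K2 + K3 + K4 + K5 + 2, fun k hk z hz1 hz2 w hw S X hX1 hX2 => ?_⟩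
  have hk2 : (2 : ℝ) ≤ k := by exact_mod_cast (by omega : 2 ≤ k)
  have hk1 : (1 : ℝ) ≤ k := by linarith
  have hzz : ∀ B, B ≤ B1 + B2 + B3 + B4 + B5 → (k : ℝ) ^ B ≤ z := fun B hB => (pow_le_pow_right₀ hk1 hB).trans hz1
  have g1 := h1 k (by omega) z (hzz _ (by omega)) hz2 w hw S X hX1 hX2
  have g2 := h2 k (by omega) z (hzz _ (by omega)) hz2 w hw S X hX1 hX2
  have g3 := h3 k (by omega) z (hzz _ (by omega)) hz2 w hw S X hX1 hX2
  have g4 := h4 k (by omega) z (hzz _ (by omega)) hz2 w hw S X hX1 hX2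
  have g5 := h5 k (by omega) z (hzz _ (by omega)) hz2 w hw S X hX1 hX2
  clear h1 h2 h3 h4 h5
  have hpow : (k : ℝ) ^ (U + 2) = (k : ℝ) ^ U * (k : ℝ) ^ 2 := pow_add _ _ _
  have hkU : (0 : ℝ) < (k : ℝ) ^ U := by positivity
  have hsmall : 1 / (k : ℝ) ^ (U + 2) ≤ 1 / (k : ℝ) ^ U / 4 := by
    rw [div_div, hpow]
    apply one_div_le_one_div_of_le (by positivity)
    apply mul_le_mul_of_nonneg_left _ hkU.le
    nlinarith
  have hsmall2 : (X : ℝ) / (k : ℝ) ^ (U + 2) ≤ (X : ℝ) / (k : ℝ) ^ U / 4 := by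
    rw [div_div, hpow]
    apply div_le_div_of_nonneg_left (Nat.cast_nonneg _) (by positivity)
    apply mul_le_mul_of_nonneg_left _ hkU.le
    nlinarith
  have hX0 : 0 ≤ (X : ℝ) / (k : ℝ) ^ U := by positivity
  have hU0 : 0 ≤ 1 / (k : ℝ) ^ U := by positivity
  have hneg : ∀ c : ℕ, 1 ≤ c → ∀ n < b ^ k, qv (-1) 0 n + -1 * (1 * (c : ℤ)) ≤ 0 := by
    intro c hc n _
    rw [qv_neg]
    have : (1 : ℤ) ≤ c := by exact_mod_cast hc
    nlinarith [sq_nonneg (n : ℤ)]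
  constructor
  · -- the expectation
    have a0 := count_int X (fun a => ¬ |R b w k S a - M b w k z S a| ≤ 1 / (k : ℝ) ^ U)
      (fun c : ℕ => 1 / (k : ℝ) ^ (U + 2) < |ES b w k S (fun _ : Fin 1 => 1) (fun _ => 0) (fun _ => 1 * (1 * (c : ℤ))) -
            MS b w k z S (fun _ : Fin 1 => 1) (fun _ => 0) (fun _ => 1 * (1 * (c : ℤ)))|)
      (fun c : ℕ => (1 / (k : ℝ) ^ (U + 2) < |ES b w k S (fun _ : Fin 1 => 1) (fun _ => 0) (fun _ => 1 * (-1 * (c : ℤ))) -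
            MS b w k z S (fun _ : Fin 1 => 1) (fun _ => 0) (fun _ => 1 * (-1 * (c : ℤ)))|) ∨
        (1 / (k : ℝ) ^ (U + 2) < |ES b w k S (fun _ : Fin 1 => -1) (fun _ => 0) (fun _ => -1 * (-1 * (c : ℤ))) -
            MS b w k z S (fun _ : Fin 1 => -1) (fun _ => 0) (fun _ => -1 * (-1 * (c : ℤ)))|))
      (fun c hc hh => by
        have hz := zero_part b w k z S (-1) (1 * (c : ℤ)) (hneg c hc)
        rw [R_eq, M_eq, hz.1, hz.2.1, add_zero, add_zero] at hh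
        rw [not_le] at hh
        exact lt_of_le_of_lt (by linarith : 1 / (k : ℝ) ^ (U + 2) ≤ 1 / (k : ℝ) ^ U) hh)
      (fun c hc hh => by
        rw [R_eq, M_eq] at hh
        by_contra hcon
        rw [not_or, not_lt, not_lt] at hcon
        obtain ⟨c1, c2⟩ := hcon
        apply hh
        rw [add_sub_add_comm]
        refine (abs_add_le _ _).trans ?_
        linarith)
    have a1 := card_or X (fun c : ℕ => 1 / (k : ℝ) ^ (U + 2) < |ES b w k S (fun _ : Fin 1 => 1) (fun _ => 0) (fun _ => 1 * (-1 * (c : ℤ))) -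
            MS b w k z S (fun _ : Fin 1 => 1) (fun _ => 0) (fun _ => 1 * (-1 * (c : ℤ)))|)
      (fun c : ℕ => 1 / (k : ℝ) ^ (U + 2) < |ES b w k S (fun _ : Fin 1 => -1) (fun _ => 0) (fun _ => -1 * (-1 * (c : ℤ))) -
            MS b w k z S (fun _ : Fin 1 => -1) (fun _ => 0) (fun _ => -1 * (-1 * (c : ℤ)))|)
    linarith
  · -- the probability
    have a0 := count_int X (fun a => (0 < a ∨ a ≤ -(b : ℤ) ^ (2 * k)) ∧
        ¬ |2 * k * Real.log b * prob b w k (Hit S a) - M b w k z S a| ≤ ε * M b w k z S a + 1 / (k : ℝ) ^ U)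
      (fun c : ℕ => (∀ n < b ^ k, 1 ≤ qv 1 0 n + 1 * (1 * (c : ℤ))) ∧
            ¬ |2 * k * Real.log b * PS b w k S (fun _ : Fin 1 => 1) (fun _ => 0) (fun _ => 1 * (1 * (c : ℤ))) -
              MS b w k z S (fun _ : Fin 1 => 1) (fun _ => 0) (fun _ => 1 * (1 * (c : ℤ)))| ≤
              ε * MS b w k z S (fun _ : Fin 1 => 1) (fun _ => 0) (fun _ => 1 * (1 * (c : ℤ))) + 1 / (k : ℝ) ^ (U + 2))
      (fun c : ℕ => (∀ n < b ^ k, 1 ≤ qv (-1) 0 n + -1 * (-1 * (c : ℤ))) ∧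
            ¬ |2 * k * Real.log b * PS b w k S (fun _ : Fin 1 => -1) (fun _ => 0) (fun _ => -1 * (-1 * (c : ℤ))) -
              MS b w k z S (fun _ : Fin 1 => -1) (fun _ => 0) (fun _ => -1 * (-1 * (c : ℤ)))| ≤
              ε * MS b w k z S (fun _ : Fin 1 => -1) (fun _ => 0) (fun _ => -1 * (-1 * (c : ℤ))) + 1 / (k : ℝ) ^ (U + 2))
      (fun c hc hcc => by
        refine ⟨fun n _ => ?_, ?_⟩
        · rw [qv_one]
          have : (1 : ℤ) ≤ c := by exact_mod_cast hc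
          nlinarith [sq_nonneg (n : ℤ)]
        · have hz := zero_part b w k z S (-1) (1 * (c : ℤ)) (hneg c hc)
          have hh := hcc.2
          rw [P_eq', M_eq, hz.2.2, hz.2.1, add_zero, add_zero] at hh
          intro h6
          apply hh
          linarith)
      (fun c hc hcc => by
        have hcb : (b : ℤ) ^ (2 * k) ≤ c := by
          rcases hcc.1 with h | h
          · have : (1 : ℤ) ≤ c := by exact_mod_cast hc
            omega
          · linarith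
        have hlt : ∀ n < b ^ k, (n : ℤ) ^ 2 < c := by
          intro n hn
          have h5 : n ^ 2 < b ^ (2 * k) := by
            rw [mul_comm 2 k, pow_mul]
            exact Nat.pow_lt_pow_left hn (by norm_num)
          have h6 : (n : ℤ) ^ 2 < (b : ℤ) ^ (2 * k) := by exact_mod_cast h5
          linarith
        refine ⟨fun n hn => ?_, ?_⟩
        · rw [qv_neg]
          have := hlt n hn
          omega
        · have hz := zero_part b w k z S 1 (-1 * (c : ℤ)) (fun n hn => by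
            rw [qv_one]
            have := hlt n hn
            omega)
          have hh := hcc.2
          rw [P_eq', M_eq, hz.2.2, hz.2.1, zero_add, zero_add] at hh
          intro h6
          apply hh
          linarith)
    linarith

end aux

/-- **Primes `|n² + a|` with `n` in an arbitrary set `S`, for almost all `a`.** -/
theorem result (b : ℕ) (hb : 2 ≤ b) (η : ℝ) (hη : 0 < η) (F U : ℕ) (ε : ℝ) (hε : 0 < ε) :
    ∃ B : ℕ, ∀ E : ℕ, ∃ K₀ : ℕ, ∀ k : ℕ, K₀ ≤ k → ∀ z : ℕ, (k : ℝ) ^ B ≤ z → (z : ℝ) ≤ (k : ℝ) ^ E →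
    ∀ w : ℕ → ℕ → ℝ, Digits b η w → ∀ S : Set ℕ, ∀ X : ℕ, b ^ (2 * k) ≤ X → X ≤ F * b ^ (2 * k) →
    ({a : ℤ | |a| ≤ X ∧ a ≠ 0 ∧ ¬ |R b w k S a - M b w k z S a| ≤ 1 / (k : ℝ) ^ U}.ncard : ℝ) ≤ (X : ℝ) / (k : ℝ) ^ U ∧
    ({a : ℤ | |a| ≤ X ∧ a ≠ 0 ∧ ((0 < a ∨ a ≤ -(b : ℤ) ^ (2 * k)) ∧
      ¬ |2 * k * Real.log b * prob b w k (Hit S a) - M b w k z S a| ≤ ε * M b w k z S a + 1 / (k : ℝ) ^ U)}.ncard : ℝ) ≤
      (X : ℝ) / (k : ℝ) ^ U :=
  main_aux b hb η hη F U ε hε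

end Pool.Agent.Results.MP_391708_nt.ArbitrarySets
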