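import Mathlib
import Pool.Agent.TH881.RQ.Wrap

/-!
# The `a` for which `|n² + a|` is a prime for some `n` in a given dense set: the exact minimal density

Let `A` be a set of natural numbers (or of primes) of lower density at least `β` (relative to the primes). The lower
density of the set of the `N` for which `N + n²` (for the second sign: `N - n²`) is a prime for some `n ∈ A` is at least
`F(β)`, where `F(β)` is given by congruence conditions only; `F(β)` is asymptotic to `e ^ (-γ) / log log (1 / β)` as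
`β` tends to `0`, and for sets `A` of natural numbers `1 - F(β)` is determined asymptotically as `β` tends to `1`.
-/

set_option autoImplicit false

namespace Pool.Agent.Results.MP_391708_nt.DenseArguments

open Finset Filter Topology

open Classical in
/-- The number of elements of `S` in `[1, x]`. -/
noncomputable def count (S : Set ℕ) (x : ℕ) : ℕ := ((Icc 1 x).filter (fun n => n ∈ S)).card

/-- The lower asymptotic density. -/
noncomputable def lowerDensity (S : Set ℕ) : ℝ := liminf (fun x : ℕ => (count S x : ℝ) / x) atTop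

/-- The arguments: the primes if `pr` is true, all natural numbers otherwise. -/
def args (pr : Bool) : Set ℕ := {n | pr = true → n.Prime}

/-- The lower density of the set of the arguments in `A`, relative to the set of all arguments. -/
noncomputable def relLower (pr : Bool) (A : Set ℕ) : ℝ :=
  liminf (fun x : ℕ => (count {n | n ∈ args pr ∧ n ∈ A} x : ℝ) / (count {n | n ∈ args pr} x : ℝ)) atTop

/-- The `N` for which `N + s n²` is a (positive) prime for some argument `n ∈ A`. For `s = 1` these are the `a = N` for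
which `n² + a` is a prime, for `s = -1` they are the `-a = N` for which `n² + a` is minus a prime, for some such `n`. -/
def hits (pr : Bool) (s : ℤ) (A : Set ℕ) : Set ℕ :=
  {N | ∃ n p : ℕ, n ∈ args pr ∧ n ∈ A ∧ p.Prime ∧ (N : ℤ) + s * (n : ℤ) ^ 2 = p}

/-- `F(β)`: the infimum of the lower densities of `hits pr s A` for the sets `A` of relative lower density at
least `β`. -/
noncomputable def F (pr : Bool) (s : ℤ) (β : ℝ) : ℝ :=
  sInf {d | ∃ A : Set ℕ, β ≤ relLower pr A ∧ d = lowerDensity (hits pr s A)}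

/-- The product of the primes up to `w`. -/
def P (w : ℕ) : ℕ := ∏ p ∈ (Icc 1 w).filter Nat.Prime, p

instance (w : ℕ) : NeZero (P w) := ⟨(Pool.Agent.TH881.Wp_pos w).ne'⟩

open Classical in
/-- The residue classes of the arguments modulo `P w`: the units for prime arguments, else all. -/
noncomputable def classes (pr : Bool) (w : ℕ) : Finset (ZMod (P w)) :=
  univ.filter (fun a => pr = true → IsUnit a)

open Classical in
/-- The classes `t` modulo `P w` for which `t + s a²` is a unit for some `a ∈ B`. -/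
noncomputable def localHits (s : ℤ) (w : ℕ) (B : Finset (ZMod (P w))) : Finset (ZMod (P w)) :=
  univ.filter (fun t => ∃ a ∈ B, IsUnit (t + s * a ^ 2))

/-- The local minimum: the infimum of `|localHits s w B| / P w` over all `w` and all sets `B` of at least the
proportion `β` of the residue classes of the arguments modulo `P w`. -/
noncomputable def localF (pr : Bool) (s : ℤ) (β : ℝ) : ℝ := sInf {d | ∃ w : ℕ, ∃ B ⊆ classes pr w,
  β * (classes pr w).card ≤ B.card ∧ d = ((localHits s w B).card : ℝ) / P w}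

/-- The twin prime constant `∏ (1 - 1 / (p - 1) ^ 2)`, `p ≥ 3` prime. -/
noncomputable def C₂ : ℝ := ⨅ z : ℕ, ∏ p ∈ (Icc 3 z).filter Nat.Prime, (1 - 1 / ((p : ℝ) - 1) ^ 2)

open Polynomial Pool.Agent.TH881.RQ in
lemma hit_eq (pr : Bool) (s : ℤ) (A : Set ℕ) : hit pr (X ^ 2 : ℤ[X]) s A = hits pr s A := by
  ext N
  constructor
  · rintro ⟨n, hn, hA, hp⟩
    refine ⟨n, _, hn, hA, hp, ?_⟩
    rw [eval_pow, eval_X] at hp ⊢
    have h1 := hp.pos
    generalize (N : ℤ) + s * (n : ℤ) ^ 2 = y at h1 ⊢
    omega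
  · rintro ⟨n, p, hn, hA, hp, h⟩
    refine ⟨n, hn, hA, ?_⟩
    rw [eval_pow, eval_X, h, Int.toNat_natCast]
    exact hp

open Polynomial Pool.Agent.TH881.RQ in
lemma F_eq (pr : Bool) (s : ℤ) (β : ℝ) : F pr s β = FFq pr (X ^ 2 : ℤ[X]) s β := by
  unfold F FFq
  congr 1
  ext d
  constructor
  · rintro ⟨A, h1, h2⟩
    refine ⟨A, h1, ?_⟩
    rw [hit_eq]
    exact h2
  · rintro ⟨A, h1, h2⟩
    refine ⟨A, h1, ?_⟩
    rw [hit_eq] at h2
    exact h2

open Polynomial Pool.Agent.TH881 Pool.Agent.TH881.RQ in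
open Classical in
lemma sumq_eq (s : ℤ) (w : ℕ) (B : Finset (ZMod (Wp w))) : sumq (X ^ 2 : ℤ[X]) s w B =
    univ.filter (fun t => ∃ a ∈ B, IsUnit (t + s * a ^ 2)) := by
  unfold sumq gd gv
  simp only [Polynomial.map_pow, Polynomial.map_X, eval_pow, eval_X]

open Polynomial Pool.Agent.TH881 Pool.Agent.TH881.RQ in
lemma localHits_eq (s : ℤ) (w : ℕ) (B : Finset (ZMod (Wp w))) :
    ((localHits s w B).card : ℝ) / P w = ((sumq (X ^ 2 : ℤ[X]) s w B).card : ℝ) / Wp w := by
  rw [sumq_eq]
  rfl

open Polynomial Pool.Agent.TH881 Pool.Agent.TH881.RG Pool.Agent.TH881.RQ in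
lemma localF_eq (pr : Bool) (s : ℤ) (β : ℝ) : localF pr s β = Flocq pr (X ^ 2 : ℤ[X]) s β := by
  unfold localF Flocq
  congr 1
  ext d
  constructor
  · rintro ⟨w, B, h0, h1, h2⟩
    exact ⟨w, B, h0, h1, h2.trans (localHits_eq s w B)⟩
  · rintro ⟨w, B, h0, h1, h2⟩
    exact ⟨w, B, h0, h1, h2.trans (localHits_eq s w B).symm⟩

/-- For both signs `s` and both kinds of arguments, `F(β)` is equal to the local minimum for `0 < β < 1`, and
`log log (1 / β) F(β)` tends to `e ^ (-γ)` as `β` tends to `0` from above. For arbitrary arguments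
`(1 - β) (log log (1 / (1 - F(β)))) ^ 2` tends to `2 C₂ e ^ (-2γ)` as `β` tends to `1` from below. -/
theorem result (s : ℤ) (hs : s = 1 ∨ s = -1) :
    (∀ pr : Bool, (∀ β : ℝ, 0 < β → β < 1 → F pr s β = localF pr s β) ∧
      Tendsto (fun β : ℝ => Real.log (Real.log (1 / β)) * F pr s β) (𝓝[>] 0)
        (𝓝 (Real.exp (-Real.eulerMascheroniConstant)))) ∧
    Tendsto (fun β : ℝ => (1 - β) * Real.log (Real.log (1 / (1 - F false s β))) ^ 2) (𝓝[<] 1)
      (𝓝 (2 * C₂ * Real.exp (-Real.eulerMascheroniConstant) ^ 2)) := by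
  have hd : 2 ≤ (Polynomial.X ^ 2 : Polynomial ℤ).natDegree := (Polynomial.natDegree_X_pow 2).ge
  have hl : 0 < (Polynomial.X ^ 2 : Polynomial ℤ).leadingCoeff := by
    rw [Polynomial.leadingCoeff_X_pow]
    norm_num
  refine ⟨fun pr => ⟨fun β h0 h1 => ?_, ?_⟩, ?_⟩
  · rw [F_eq, localF_eq]
    exact Pool.Agent.TH881.RQ.formula pr _ hd hl s hs β h0 h1
  · simp only [F_eq]
    exact Pool.Agent.TH881.RQ.law_zero pr _ hd hl s hs
  · simp only [F_eq]
    refine Pool.Agent.TH881.RQ.law_one false _ hd hl s hs 1 _ 2 ?_ (by norm_num)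
      Pool.Agent.TH914.J2925.lim_sq (Pool.Agent.TH881.RQ.stAdm_sq s hs)
    have h1 : 0 < Pool.Agent.TH881.RG.C2 := Pool.Agent.TH881.RQ.C2_pos
    have h2 : C₂ = Pool.Agent.TH881.RG.C2 := rfl
    rw [h2]
    positivity

end Pool.Agent.Results.MP_391708_nt.DenseArguments
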