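import Pool.Agent.Q25.RDig1

set_option autoImplicit false

/-!
# Primes `|n² + a|` for integers `n` with independent random digits, for almost all `a`

The digits of `n < b ^ k` in base `b` are independent random variables with arbitrary distributions, no digit having a
probability larger than `1 - η` (for instance, `n` may be a random integer with restricted digits). For all but
`X / k ^ U` of the integers `a` with `0 < a ≤ X` or `-X ≤ a ≤ -b ^ (2 k)`, where `X` is of the order of `b ^ (2 k)`, the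
probability that `|n² + a|` is a prime is the one predicted by Hardy and Littlewood.
-/

namespace Pool.Agent.Results.MP_391708_nt.RandomDigits

open Finset

/-- `w i d` is the probability that the digit number `i` is equal to `d`; no digit has a probability larger than
`1 - η` -/
structure Digits (b : ℕ) (η : ℝ) (w : ℕ → ℕ → ℝ) : Prop where
  nonneg : ∀ i d, 0 ≤ w i d
  sum : ∀ i, ∑ d ∈ range b, w i d = 1
  le : ∀ i d, w i d ≤ 1 - η

/-- the probability of the integer `n < b ^ k`, the product of the probabilities of its digits -/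
noncomputable def weight (b : ℕ) (w : ℕ → ℕ → ℝ) (k n : ℕ) : ℝ := ∏ i ∈ range k, w i (n / b ^ i % b)

open Classical in
/-- the probability that `n < b ^ k` has the property `S` -/
noncomputable def prob (b : ℕ) (w : ℕ → ℕ → ℝ) (k : ℕ) (S : ℕ → Prop) : ℝ :=
  ∑ n ∈ (range (b ^ k)).filter S, weight b w k n

/-- `|n² + a|` is a prime -/
def Hit (a : ℤ) (n : ℕ) : Prop := ((n : ℤ) ^ 2 + a).natAbs.Prime

open Classical in
/-- the expectation of `log |n² + a|`, counted only if `|n² + a|` is a prime -/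
noncomputable def R (b : ℕ) (w : ℕ → ℕ → ℝ) (k : ℕ) (a : ℤ) : ℝ :=
  ∑ n ∈ (range (b ^ k)).filter (Hit a), weight b w k n * Real.log (((n : ℤ) ^ 2 + a).natAbs : ℝ)

/-- the primes up to `z` -/
def primes (z : ℕ) : Finset ℕ := (Icc 1 z).filter Nat.Prime

/-- the prediction: the factor at the primes up to the base `b`, and the product over the primes `p` with
`b < p ≤ z` of `1 - (-a | p) / (p - 1)` -/
noncomputable def sigma (b : ℕ) (w : ℕ → ℕ → ℝ) (k z : ℕ) (a : ℤ) : ℝ :=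
  (∏ p ∈ primes b, (1 - 1 / (p : ℝ)))⁻¹ * prob b w k (fun n => ∀ p ∈ primes b, ¬ (p : ℤ) ∣ (n : ℤ) ^ 2 + a) *
    ∏ p ∈ (primes z).filter (fun p => b < p), (1 - (jacobiSym (-a) p : ℝ) / ((p : ℝ) - 1))

/-- the expectation is predicted up to `k ^ (-U)`, and the probability that `|n² + a|` is a prime up to a factor
`1 ± ε` and up to `k ^ (-U)` -/
def Good (b : ℕ) (w : ℕ → ℕ → ℝ) (k z U : ℕ) (ε : ℝ) (a : ℤ) : Prop :=
  |R b w k a - sigma b w k z a| ≤ 1 / (k : ℝ) ^ U ∧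
  |2 * k * Real.log b * prob b w k (Hit a) - sigma b w k z a| ≤ ε * sigma b w k z a + 1 / (k : ℝ) ^ U

section aux
open Pool.Agent.TH872.Sq Pool.Agent.Q25.RDig
open Pool.Agent.H373R2.T7 (pz Vz mem_pz)

/-- the value for the sign `s` of `a` -/
lemma val_eq (s : ℤ) (hs : s = 1 ∨ s = -1) (a : ℤ) (n : ℕ) (h : 1 ≤ qv s 0 n + s * a) :
    (qv s 0 n + s * a).toNat = ((n : ℤ) ^ 2 + a).natAbs := by
  unfold qv at h ⊢
  rcases hs with rfl | rfl
  · have e : (1 : ℤ) * (n : ℤ) ^ 2 + 0 * n + 1 * a = (n : ℤ) ^ 2 + a := by ring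
    rw [e] at h ⊢
    omega
  · have e : (-1 : ℤ) * (n : ℤ) ^ 2 + 0 * n + -1 * a = -((n : ℤ) ^ 2 + a) := by ring
    rw [e] at h ⊢
    omega

lemma Pr_eq (b : ℕ) (w : ℕ → ℕ → ℝ) (k : ℕ) (s : ℤ) (hs : s = 1 ∨ s = -1) (a : ℤ)
    (h : ∀ n < b ^ k, 1 ≤ qv s 0 n + s * a) :
    Pr b w k (fun _ : Fin 1 => s) (fun _ => 0) (fun _ => s * a) = prob b w k (Hit a) := by
  unfold Pr prob Hit
  have e : (range (b ^ k)).filter (fun n : ℕ => ∀ _j : Fin 1, (qv s 0 n + s * a).toNat.Prime) =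
      (range (b ^ k)).filter (fun n : ℕ => ((n : ℤ) ^ 2 + a).natAbs.Prime) := by
    apply filter_congr
    intro n hn
    rw [val_eq s hs a n (h n (mem_range.1 hn)), forall_const]
  rw [e]
  unfold P weight
  simp only [zero_add]
  refine sum_congr (Finset.ext fun n => ?_) (fun _ _ => rfl)
  simp only [mem_filter]

lemma E1_eq' (b : ℕ) (w : ℕ → ℕ → ℝ) (k : ℕ) (s : ℤ) (hs : s = 1 ∨ s = -1) (a : ℤ)
    (h : ∀ n < b ^ k, 1 ≤ qv s 0 n + s * a) :
    E1 b w k (fun _ : Fin 1 => s) (fun _ => 0) (fun _ => s * a) = R b w k a := by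
  classical
  rw [E1_eq]
  unfold R Hit
  have e : (range (b ^ k)).filter (fun n : ℕ => ∀ _j : Fin 1, (qv s 0 n + s * a).toNat.Prime) =
      (range (b ^ k)).filter (fun n : ℕ => ((n : ℤ) ^ 2 + a).natAbs.Prime) := by
    apply filter_congr
    intro n hn
    rw [val_eq s hs a n (h n (mem_range.1 hn)), forall_const]
  rw [e]
  have e2 : (range (b ^ k)).filter (fun n : ℕ => ((n : ℤ) ^ 2 + a).natAbs.Prime) =
      @Finset.filter ℕ (Hit a) (fun x => Classical.propDecidable _) (range (b ^ k)) := by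
    ext n; simp only [mem_filter]; rfl
  rw [e2]
  apply sum_congr rfl
  intro n hn
  have hn' := mem_range.1 (mem_filter.1 hn).1
  unfold P weight
  simp only [zero_add, Fin.prod_univ_one]
  congr 1
  have h1 := h n hn'
  have h2 : (((qv s 0 n + s * a).toNat : ℤ) : ℝ) = ((qv s 0 n + s * a : ℤ) : ℝ) := by
    rw [Int.toNat_of_nonneg (by omega)]
  rw [← h2, val_eq s hs a n h1, Int.cast_natCast]

lemma nu_eq (s : ℤ) (hs : s = 1 ∨ s = -1) (a : ℤ) (p : ℕ) (hp : p.Prime) (hp2 : p ≠ 2) :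
    (nu (fun _ : Fin 1 => s) (fun _ => 0) (fun _ => s * a) p : ℤ) = jacobiSym (-a) p + 1 := by
  rw [← sq_count (-a) p hp hp2]
  unfold nu
  congr 2
  apply filter_congr
  intro r _
  rw [exists_const]
  rcases hs with rfl | rfl
  · have e : (1 : ℤ) * (r : ℤ) ^ 2 + 0 * r + 1 * a = (r : ℤ) ^ 2 - -a := by ring
    rw [e]
  · have e : (-1 : ℤ) * (r : ℤ) ^ 2 + 0 * r + -1 * a = -((r : ℤ) ^ 2 - -a) := by ring
    rw [e, dvd_neg]

lemma Sg_eq' (b : ℕ) (hb : 2 ≤ b) (w : ℕ → ℕ → ℝ) (k : ℕ) (s : ℤ) (hs : s = 1 ∨ s = -1) (a : ℤ) (z : ℕ) (hz : b ≤ z) :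
    Sg b w 0 k (fun _ : Fin 1 => s) (fun _ => 0) (fun _ => s * a) z = sigma b w k z a := by
  classical
  rw [Sg_split b w k _ _ _ z hz]
  unfold sigma
  have h1 : ∏ p ∈ (pz z).filter (fun p => b < p),
      ((1 - (nu (fun _ : Fin 1 => s) (fun _ => 0) (fun _ => s * a) p : ℝ) / p) / (1 - 1 / (p : ℝ)) ^ 1) =
      ∏ p ∈ (primes z).filter (fun p => b < p), (1 - (jacobiSym (-a) p : ℝ) / ((p : ℝ) - 1)) := by
    apply prod_congr rfl
    intro p hp
    rw [mem_filter, mem_pz] at hp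
    have hp2 : p ≠ 2 := by omega
    have h2 : ((nu (fun _ : Fin 1 => s) (fun _ => 0) (fun _ => s * a) p : ℤ) : ℝ) = ((jacobiSym (-a) p + 1 : ℤ) : ℝ) := by
      rw [nu_eq s hs a p hp.1.2 hp2]
    push_cast at h2
    rw [h2]
    have hp1 : (1 : ℝ) < p := by exact_mod_cast hp.1.2.one_lt
    have h3 : (p : ℝ) - 1 ≠ 0 := by linarith
    have h4 : (p : ℝ) ≠ 0 := by linarith
    field_simp
    ring
  rw [h1, pow_one]
  congr 2
  unfold prob P weight
  simp only [zero_add]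
  refine sum_congr (Finset.ext fun n => ?_) (fun _ _ => rfl)
  simp only [mem_filter]
  apply and_congr_right
  intro _
  apply forall₂_congr
  intro p _
  rw [exists_const]
  rcases hs with rfl | rfl
  · have e : (1 : ℤ) * (n : ℤ) ^ 2 + 0 * n + 1 * a = (n : ℤ) ^ 2 + a := by ring
    rw [e]
  · have e : (-1 : ℤ) * (n : ℤ) ^ 2 + 0 * n + -1 * a = -((n : ℤ) ^ 2 + a) := by ring
    rw [e, dvd_neg]

/-- one sign -/
lemma one_sign (b : ℕ) (hb : 2 ≤ b) (η : ℝ) (hη : 0 < η) (F U : ℕ) (ε : ℝ) (hε : 0 < ε) (s : ℤ) (hs : s = 1 ∨ s = -1) :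
    ∃ B : ℕ, ∀ E : ℕ, ∃ K₀ : ℕ, ∀ k : ℕ, K₀ ≤ k → ∀ z : ℕ, (k : ℝ) ^ B ≤ z → (z : ℝ) ≤ (k : ℝ) ^ E →
    ∀ w : ℕ → ℕ → ℝ, Digits b η w → ∀ X : ℕ, b ^ (2 * k) ≤ X → X ≤ F * b ^ (2 * k) →
    ∀ Q : ℕ → Prop, [DecidablePred Q] → (∀ c : ℕ, Q c → (∀ n < b ^ k, 1 ≤ qv s 0 n + (c : ℤ)) ∧ ¬ Good b w k z U ε (s * (c : ℤ))) →
    (((Icc 1 X).filter Q).card : ℝ) ≤ (X : ℝ) / (k : ℝ) ^ U := by
  have hs0 : s ≠ 0 := by rcases hs with rfl | rfl <;> decide
  have hss : ∀ x : ℤ, s * (s * x) = x := by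
    intro x
    rcases hs with rfl | rfl <;> ring
  have hld : ld s 0 ≠ 0 := by unfold ld; rw [if_neg hs0]; exact hs0
  have hdg : dg s = 2 := dg_ne hs0
  obtain ⟨B, h1⟩ := main b hb η hη 1 (fun _ => s) (fun _ => 0) (fun _ => hld) F U ε hε
  refine ⟨B + 1, fun E => ?_⟩
  obtain ⟨K₀, h2⟩ := h1 E
  refine ⟨K₀ + b, fun k hk z hz1 hz2 w hw X hX1 hX2 Q _ hQ => ?_⟩
  have hk1 : (1 : ℝ) ≤ k := by exact_mod_cast (by omega : 1 ≤ k)
  have hbz : b ≤ z := by
    have h4 : (k : ℝ) ≤ (k : ℝ) ^ (B + 1) := le_self_pow₀ hk1 (by omega)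
    have h5 : (k : ℝ) ≤ z := h4.trans hz1
    have h6 : k ≤ z := by exact_mod_cast h5
    omega
  have h3 := h2 k (by omega) z ((pow_le_pow_right₀ hk1 (Nat.le_succ B)).trans hz1) hz2 w ⟨hw.nonneg, hw.sum, hw.le⟩
    (fun _ => 1) (fun _ => Or.inl rfl) (fun _ => X) (fun _ => by rw [hdg]; exact ⟨hX1, hX2⟩) (fun c => Q (c 0)) (by
      intro c hc hQc
      obtain ⟨h4, h5⟩ := hQ (c 0) hQc
      refine ⟨fun j => by rw [Fin.eq_zero j]; simpa using h4, ?_⟩
      have h6 : (fun j : Fin 1 => (1 : ℤ) * (c j : ℤ)) = fun _ => s * (s * (c 0 : ℤ)) := by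
        funext j; rw [Fin.eq_zero j, hss, one_mul]
      have hpos : ∀ n < b ^ k, 1 ≤ qv s 0 n + s * (s * (c 0 : ℤ)) := by
        intro n hn; rw [hss]; exact h4 n hn
      rw [h6, Sg_eq' b hb w k s hs _ z hbz, E1_eq' b w k s hs _ hpos, Pr_eq b w k s hs _ hpos]
      have hLL : LL b k (fun _ : Fin 1 => s) = 2 * k * Real.log b := by
        unfold LL
        rw [Fin.prod_univ_one, hdg]
        norm_num
      rw [hLL]
      exact h5)
  rw [card_one] at h3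
  simpa using h3

end aux

open Classical in
/-- **The Hardy–Littlewood formula for the primes `|n² + a|`, `n` with independent random digits, for almost all `a`.** -/
theorem result (b : ℕ) (hb : 2 ≤ b) (η : ℝ) (hη : 0 < η) (F U : ℕ) (ε : ℝ) (hε : 0 < ε) :
    ∃ B : ℕ, ∀ E : ℕ, ∃ K₀ : ℕ, ∀ k : ℕ, K₀ ≤ k → ∀ z : ℕ, (k : ℝ) ^ B ≤ z → (z : ℝ) ≤ (k : ℝ) ^ E →
    ∀ w : ℕ → ℕ → ℝ, Digits b η w → ∀ X : ℕ, b ^ (2 * k) ≤ X → X ≤ F * b ^ (2 * k) →
    (((Icc (-(X : ℤ)) X).filter (fun a : ℤ => (0 < a ∨ a ≤ -(b : ℤ) ^ (2 * k)) ∧ ¬ Good b w k z U ε a)).card : ℝ) ≤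
      (X : ℝ) / (k : ℝ) ^ U := by
  obtain ⟨B1, h1⟩ := one_sign b hb η hη F (U + 1) ε hε 1 (Or.inl rfl)
  obtain ⟨B2, h2⟩ := one_sign b hb η hη F (U + 1) ε hε (-1) (Or.inr rfl)
  refine ⟨B1 + B2, fun E => ?_⟩
  obtain ⟨K1, h1⟩ := h1 E
  obtain ⟨K2, h2⟩ := h2 E
  refine ⟨K1 + K2 + 2, fun k hk z hz1 hz2 w hw X hX1 hX2 => ?_⟩
  have hk2 : (2 : ℝ) ≤ k := by exact_mod_cast (by omega : 2 ≤ k)
  have hk1 : (1 : ℝ) ≤ k := by linarith
  have hGood : ∀ a : ℤ, Good b w k z (U + 1) ε a → Good b w k z U ε a := by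
    intro a ⟨g1, g2⟩
    have g3 : 1 / (k : ℝ) ^ (U + 1) ≤ 1 / (k : ℝ) ^ U :=
      one_div_le_one_div_of_le (by positivity) (pow_le_pow_right₀ hk1 (Nat.le_succ U))
    exact ⟨g1.trans g3, g2.trans (by linarith)⟩
  have g1 := h1 k (by omega) z ((pow_le_pow_right₀ hk1 (by omega)).trans hz1) hz2 w hw X hX1 hX2
    (fun c => 0 < c ∧ ¬ Good b w k z U ε (c : ℤ)) (by
      intro c hc
      refine ⟨fun n _ => ?_, fun h => hc.2 (hGood _ (by simpa using h))⟩
      unfold Pool.Agent.TH872.Sq.qv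
      have : 0 < (c : ℤ) := by exact_mod_cast hc.1
      nlinarith [sq_nonneg (n : ℤ)])
  have g2 := h2 k (by omega) z ((pow_le_pow_right₀ hk1 (by omega)).trans hz1) hz2 w hw X hX1 hX2
    (fun c => b ^ (2 * k) ≤ c ∧ ¬ Good b w k z U ε (-(c : ℤ))) (by
      intro c hc
      refine ⟨fun n hn => ?_, fun h => hc.2 (hGood _ (by simpa using h))⟩
      unfold Pool.Agent.TH872.Sq.qv
      have h5 : n ^ 2 < b ^ (2 * k) := by
        rw [mul_comm 2 k, pow_mul]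
        exact Nat.pow_lt_pow_left hn (by norm_num)
      have h6 : (n : ℤ) ^ 2 < c := by exact_mod_cast h5.trans_le hc.1
      linarith)
  have hsub : (Icc (-(X : ℤ)) X).filter (fun a : ℤ => (0 < a ∨ a ≤ -(b : ℤ) ^ (2 * k)) ∧ ¬ Good b w k z U ε a) ⊆
      ((Icc 1 X).filter (fun c : ℕ => 0 < c ∧ ¬ Good b w k z U ε (c : ℤ))).image (fun c : ℕ => (c : ℤ)) ∪
      ((Icc 1 X).filter (fun c : ℕ => b ^ (2 * k) ≤ c ∧ ¬ Good b w k z U ε (-(c : ℤ)))).image (fun c : ℕ => -(c : ℤ)) := by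
    intro a ha
    rw [mem_filter, mem_Icc] at ha
    obtain ⟨⟨ha1, ha2⟩, ha3, ha4⟩ := ha
    rw [mem_union, mem_image, mem_image]
    rcases ha3 with h | h
    · left
      refine ⟨a.toNat, ?_, by omega⟩
      have e : ((a.toNat : ℕ) : ℤ) = a := by omega
      rw [mem_filter, mem_Icc, e]
      exact ⟨⟨by omega, by omega⟩, by omega, ha4⟩
    · right
      have hbp : (0 : ℤ) < (b : ℤ) ^ (2 * k) := by
        have : (0 : ℤ) < b := by exact_mod_cast (by omega : 0 < b)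
        positivity
      refine ⟨(-a).toNat, ?_, by omega⟩
      have e : (((-a).toNat : ℕ) : ℤ) = -a := by omega
      rw [mem_filter, mem_Icc, e, neg_neg]
      refine ⟨⟨by omega, by omega⟩, ?_, ha4⟩
      have : ((b ^ (2 * k) : ℕ) : ℤ) ≤ (((-a).toNat : ℕ) : ℤ) := by
        rw [e]; push_cast; linarith
      exact_mod_cast this
  have h3 : (((Icc (-(X : ℤ)) X).filter (fun a : ℤ => (0 < a ∨ a ≤ -(b : ℤ) ^ (2 * k)) ∧ ¬ Good b w k z U ε a)).card : ℝ) ≤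
      (X : ℝ) / (k : ℝ) ^ (U + 1) + (X : ℝ) / (k : ℝ) ^ (U + 1) := by
    refine le_trans ?_ (add_le_add g1 g2)
    exact_mod_cast (card_le_card hsub).trans ((card_union_le _ _).trans (add_le_add card_image_le card_image_le))
  refine h3.trans ?_
  have e : (X : ℝ) / (k : ℝ) ^ (U + 1) + (X : ℝ) / (k : ℝ) ^ (U + 1) = (X : ℝ) / (k : ℝ) ^ U * (2 / k) := by
    rw [pow_succ]
    field_simp
    ring
  rw [e]
  apply mul_le_of_le_one_right (by positivity)
  rw [div_le_one (by positivity)]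
  exact hk2

end Pool.Agent.Results.MP_391708_nt.RandomDigits
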