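import Pool.Agent.Q25.GReg4
import Pool.Agent.Y879.GL.QuadU

/-!
# Narrow progressions in ARBITRARY sets of `n` with `n² + a` prime, uniformly in ALL integers `a`

Let `V = V(a, r, X)` be the product of `1 - ν(p) / p` over the primes `p ≤ X ^ (1/r)`, where `ν(p)` is the number of the
`n` modulo `p` with `p ∣ n² + a`. For all large `X`, ALL integers `a` (of any size), all intervals `(u, u + Y]` with
`X ^ θ ≤ Y ≤ X` and EVERY set `A` of integers `n` such that `n² + a` has no prime factor `≤ X ^ (1/r)` (for example with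
`|n² + a|` a prime `> X ^ (1/r)`), all elements of `A` in the interval, with at most `ε Y V` exceptions, are terms of
`l`-term progressions in `A ∩ (u, u + Y]` whose difference is at most a fixed power of `log X`. If `r` is large, `-a` is
not a square, `|a| ≤ X ^ E` and `V ≤ C / log X`, then the number of the `n ∈ (u, u + Y]` such that `n² + a` has no prime
factor `≤ X ^ (1/r)` is `Y V` up to `ε Y V`.
-/

set_option autoImplicit false

namespace Pool.Agent.Results.MP_391708_nt.UniformProgressions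

open Finset Filter

/-- `n² + a` has no prime factor `≤ X ^ (1 / r)` -/
def Rough (a : ℤ) (r X n : ℕ) : Prop :=
  ∀ p : ℕ, p.Prime → (p : ℝ) ≤ (X : ℝ) ^ (1 / (r : ℝ)) → ¬ (p : ℤ) ∣ (n : ℤ) ^ 2 + a

/-- the number `ν(p)` of the residue classes `n` modulo `p` with `p ∣ n² + a` -/
def ν (a : ℤ) (p : ℕ) : ℕ := ((range p).filter (fun n : ℕ => (p : ℤ) ∣ (n : ℤ) ^ 2 + a)).card

/-- the sieve density: the product of `1 - ν(p) / p` over the primes `p ≤ X ^ (1 / r)` -/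
noncomputable def V (a : ℤ) (r X : ℕ) : ℝ :=
  ∏ p ∈ (Icc 1 ⌊(X : ℝ) ^ (1 / (r : ℝ))⌋₊).filter Nat.Prime, (1 - (ν a p : ℝ) / p)

/-- `n` is a term of an `l`-term arithmetic progression contained in `A ∩ (u, v]`, with difference in `[1, D]` -/
def OnProgression (A : Set ℕ) (l : ℕ) (D : ℝ) (u v n : ℕ) : Prop :=
  ∃ m d : ℕ, 1 ≤ d ∧ (d : ℝ) ≤ D ∧ (∀ i < l, m + i * d ∈ A ∧ u < m + i * d ∧ m + i * d ≤ v) ∧ ∃ i < l, n = m + i * d

/-- all elements of `A` in `(u, v]` with at most `t` exceptions are terms of such progressions -/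
def NearlyAll (A : Set ℕ) (l : ℕ) (D : ℝ) (u v : ℕ) (t : ℝ) : Prop :=
  ({n : ℕ | u < n ∧ n ≤ v ∧ n ∈ A ∧ ¬ OnProgression A l D u v n}.ncard : ℝ) ≤ t

lemma V_eq (a : ℤ) (r X : ℕ) : V a r X =
    Pool.Agent.Y843.HS.VV (Pool.Agent.Q25.GReg.ZQ a) 0 ⌊(X : ℝ) ^ (1 / (r : ℝ))⌋₊ := by
  unfold V Pool.Agent.Y843.HS.VV
  apply prod_congr
  · ext q
    rw [Pool.Agent.Y843.HS.Pr_mem, mem_filter, mem_Icc]
    constructor
    · rintro ⟨⟨a, b⟩, c⟩
      exact ⟨⟨c.pos, b⟩, c⟩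
    · rintro ⟨⟨a, b⟩, c⟩
      exact ⟨⟨c.pos, b⟩, c⟩
  · intro q _
    rfl

lemma not_sq (a : ℤ) (ha : ¬ IsSquare (-a)) : ¬ IsSquare ((0 : ℤ) ^ 2 - 4 * 1 * a) := by
  rintro ⟨x, hx⟩
  have h2 : Even x := by
    have h3 : Even (x * x) := by
      rw [← hx]
      exact ⟨-2 * a, by ring⟩
    rcases Int.even_or_odd x with h | h
    · exact h
    · exact absurd h3 (Int.not_even_iff_odd.2 (h.mul h))
  obtain ⟨y, rfl⟩ := h2
  apply ha
  refine ⟨y, ?_⟩
  linarith

section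
open Pool.Agent.TH464.PW (quad quad_eval quad_irr quad_deg)
open Pool.Agent.Y879.GL (quad_coeff)
open Pool.Agent.Q25.UReg (Sys GoodP VP SmallDensity NoTr GapLawP poly_laws)

lemma ev (a : ℤ) (m : ℤ) : (quad 1 0 a).eval m = m ^ 2 + a := by
  rw [quad_eval]
  ring

lemma sys (a : ℤ) (ha : ¬ IsSquare (-a)) (H : ℤ) (hH : |a| ≤ H) (hH1 : 1 ≤ H) :
    Sys 2 (H : ℝ) (fun _ : Fin 1 => quad 1 0 a) where
  irr := fun _ => quad_irr 1 0 a one_ne_zero (fun p hp h => by
    have h1 := h.1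
    have h2 : p ∣ 1 := by exact_mod_cast h1
    exact hp.one_lt.ne' (Nat.dvd_one.1 h2)) (not_sq a ha)
  deg := fun _ => by rw [quad_deg 1 0 a one_ne_zero]; norm_num
  degD := fun _ => by rw [quad_deg 1 0 a one_ne_zero]
  hgt := fun _ n => by
    have := quad_coeff 1 0 a n H (by simpa using hH1) (by
      simpa using (by omega : (0 : ℤ) ≤ H)) hH
    exact_mod_cast this
  adm := fun p hp => by
    by_contra hcon
    push Not at hcon
    obtain ⟨_, h0⟩ := hcon 0
    obtain ⟨_, h1⟩ := hcon 1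
    rw [ev] at h0 h1
    have h2 : (p : ℤ) ∣ 1 := by
      have h3 := dvd_sub h1 h0
      have e : ((1 : ℤ) ^ 2 + a) - ((0 : ℤ) ^ 2 + a) = 1 := by ring
      rwa [e] at h3
    have h4 : p ∣ 1 := by exact_mod_cast h2
    exact hp.one_lt.ne' (Nat.dvd_one.1 h4)

lemma noTr (a : ℤ) (U : ℝ) : NoTr (fun _ : Fin 1 => quad 1 0 a) U := by
  intro i j t ht _
  have ht' : (1 : ℤ) ≤ t := by exact_mod_cast ht
  constructor
  · intro h
    have h1 := congrArg (Polynomial.eval 0) h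
    simp only at h1
    rw [Polynomial.eval_comp, ev, ev] at h1
    simp only [Polynomial.eval_add, Polynomial.eval_X, Polynomial.eval_C] at h1
    nlinarith
  · intro h
    have h1 := congrArg (Polynomial.eval 0) h
    have h2 := congrArg (Polynomial.eval 1) h
    have h3 := congrArg (Polynomial.eval (-1)) h
    simp only at h1 h2 h3
    rw [Polynomial.eval_neg, Polynomial.eval_comp, ev, ev] at h1 h2 h3
    simp only [Polynomial.eval_add, Polynomial.eval_X, Polynomial.eval_C] at h1 h2 h3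
    nlinarith

end

open Classical in
/-- Let `l ≥ 1`, `θ, ε > 0`. (1) For every `r ≥ 1` there is `B` such that for all large `X`, ALL integers `a`, all
`(u, u + Y]` with `X ^ θ ≤ Y ≤ X` and EVERY set `A` of integers `n` such that `n² + a` has no prime factor `≤ X ^ (1/r)`:
all elements of `A` in `(u, u + Y]`, with at most `ε Y V` exceptions, are terms of `l`-term progressions in
`A ∩ (u, u + Y]` with a difference `≤ log ^ B X`. (2) For all `E > 0` and all `r ≥ r₀` and `C`, for all large `X`, all `a`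
with `|a| ≤ X ^ E`, `-a` not a square and `V ≤ C / log X`, and all intervals `(u, u + Y]` with `Y ≥ X ^ θ`: the number of the
`n` in the interval for which `n² + a` has no prime factor `≤ X ^ (1/r)` is `Y V` up to `ε Y V`. -/
theorem result (l : ℕ) (hl : 1 ≤ l) (θ ε : ℝ) (hθ : 0 < θ) (hε : 0 < ε) :
    (∀ r : ℕ, 1 ≤ r → ∃ B X₀ : ℕ, ∀ X : ℕ, X₀ ≤ X → ∀ a : ℤ, ∀ u Y : ℕ, (X : ℝ) ^ θ ≤ Y → Y ≤ X →
      ∀ A : Set ℕ, (∀ n ∈ A, Rough a r X n) →
        NearlyAll A l (Real.log X ^ B) u (u + Y) (ε * (Y * V a r X))) ∧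
    (∀ E : ℝ, 0 < E → ∃ r₀ : ℕ, ∀ r : ℕ, r₀ ≤ r → ∀ C : ℝ, ∃ X₀ : ℕ, ∀ X : ℕ, X₀ ≤ X → ∀ a : ℤ,
      |(a : ℝ)| ≤ (X : ℝ) ^ E → ¬ IsSquare (-a) → V a r X ≤ C / Real.log X → ∀ u Y : ℕ, (X : ℝ) ^ θ ≤ Y →
        |(((Ioc u (u + Y)).filter (fun n => Rough a r X n)).card : ℝ) - Y * V a r X| ≤ ε * (Y * V a r X)) := by
  refine ⟨fun r hr => ?_, fun E hE => ?_⟩
  · obtain ⟨B, n1, h1⟩ := Pool.Agent.Q25.GReg.narrowZ hl 2 r hr hθ hε
    refine ⟨B, n1, fun X hX a u Y hXY hYX A hA => ?_⟩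
    have h2 := h1 X hX _ (Pool.Agent.Q25.GReg.ZQ_cls a) u Y hXY hYX ((Ioc u (u + Y)).filter (fun n => n ∈ A))
      (filter_subset _ _) (by
        intro n hn p hp hpX hcon
        rw [mem_filter] at hn
        have h3 := hA n hn.2 p hp hpX
        unfold Pool.Agent.Q25.GReg.ZQ at hcon
        rw [mem_filter] at hcon
        apply h3
        have h4 := hcon.2
        have h5 : ((n % p : ℕ) : ℤ) ≡ n [ZMOD p] := by
          rw [Int.natCast_mod]
          exact Int.mod_modEq _ _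
        have h6 : ((n % p : ℕ) : ℤ) ^ 2 + a ≡ (n : ℤ) ^ 2 + a [ZMOD p] := (h5.pow 2).add_right a
        exact h6.dvd_iff.1 h4)
    rw [← V_eq] at h2
    unfold NearlyAll
    refine le_trans (le_of_eq ?_) h2
    rw [← Set.ncard_coe_finset]
    congr 2
    ext n
    unfold Pool.Agent.Y843.HG.Iso
    rw [mem_coe, mem_filter, mem_filter, mem_Ioc]
    constructor
    · rintro ⟨g1, g2, g3, g4⟩
      refine ⟨⟨⟨g1, g2⟩, g3⟩, fun hcon => g4 ?_⟩
      obtain ⟨m, d, e1, e2, e3, e4⟩ := hcon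
      refine ⟨m, d, e1, e2, fun i hi => ?_, e4⟩
      have e5 := e3 i hi
      rw [mem_filter, mem_Ioc] at e5
      exact ⟨e5.2, e5.1.1, e5.1.2⟩
    · rintro ⟨⟨⟨g1, g2⟩, g3⟩, g4⟩
      refine ⟨g1, g2, g3, fun hcon => g4 ?_⟩
      obtain ⟨m, d, e1, e2, e3, e4⟩ := hcon
      refine ⟨m, d, e1, e2, fun i hi => ?_, e4⟩
      obtain ⟨e5, e6, e7⟩ := e3 i hi
      rw [mem_filter, mem_Ioc]
      exact ⟨⟨e6, e7⟩, e5⟩
  · obtain ⟨r0, hr02, h1⟩ := Pool.Agent.Q25.UReg.poly_laws 1 2 (E + 1) 1 θ (by positivity) one_pos hθ 1 1 ε hε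
    refine ⟨r0, fun r hr C => ?_⟩
    obtain ⟨n1, h2⟩ := eventually_atTop.1 ((h1 r hr C).and (eventually_ge_atTop 2))
    refine ⟨n1, fun X hX a ha hsq hV u Y hXY => ?_⟩
    obtain ⟨h3, hX2⟩ := h2 X hX
    have hX1 : (1 : ℝ) ≤ X := by exact_mod_cast (by omega : 1 ≤ X)
    have hs : Pool.Agent.Q25.UReg.Sys 2 ((X : ℝ) ^ (E + 1)) (fun _ : Fin 1 => Pool.Agent.TH464.PW.quad 1 0 a) := by
      have hb : ((max |a| 1 : ℤ) : ℝ) ≤ (X : ℝ) ^ (E + 1) := by
        push_cast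
        apply max_le
        · exact ha.trans (Real.rpow_le_rpow_of_exponent_le hX1 (by linarith))
        · exact Real.one_le_rpow hX1 (by positivity)
      have h5 := sys a hsq (max |a| 1) (le_max_left _ _) (le_max_right _ _)
      exact ⟨h5.irr, h5.deg, h5.degD, fun i n => (h5.hgt i n).trans hb, h5.adm⟩
    have hVeq : Pool.Agent.Q25.UReg.VP (fun _ : Fin 1 => Pool.Agent.TH464.PW.quad 1 0 a) r X = V a r X := by
      unfold Pool.Agent.Q25.UReg.VP V ν
      apply prod_congr rfl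
      intro p _
      congr 3
      refine congrArg card (Finset.ext fun m => ?_)
      simp only [mem_filter, ev]
      constructor
      · rintro ⟨g1, _, g2⟩
        exact ⟨g1, g2⟩
      · rintro ⟨g1, g2⟩
        exact ⟨g1, 0, g2⟩
    have hG : ∀ n : ℕ, Pool.Agent.Q25.UReg.GoodP (fun _ : Fin 1 => Pool.Agent.TH464.PW.quad 1 0 a) r X n ↔
        Rough a r X n := by
      intro n
      unfold Pool.Agent.Q25.UReg.GoodP Rough
      simp only [ev]
      exact ⟨fun h p hp hpX => h p hp hpX 0, fun h p hp hpX _ => h p hp hpX⟩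
    obtain ⟨_, h6⟩ := h3 _ hs (Or.inl (by rw [hVeq]; exact hV)) (noTr a _) u Y hXY
    have h7 := h6 1 0 (Or.inl le_rfl)
    rw [hVeq] at h7
    have e1 : ((Ioc u (u + Y)).filter (fun n => Pool.Agent.Q25.UReg.GoodP
        (fun _ : Fin 1 => Pool.Agent.TH464.PW.quad 1 0 a) r X n ∧ ((Ico (n - 0) n).filter (fun m =>
        Pool.Agent.Q25.UReg.GoodP (fun _ : Fin 1 => Pool.Agent.TH464.PW.quad 1 0 a) r X m)).card < 1)) =
        (Ioc u (u + Y)).filter (fun n => Rough a r X n) := by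
      ext n
      simp only [mem_filter, hG]
      simp
    have e2 : ∑ j ∈ range 1, Pool.Agent.Q25.UReg.pois (((0 : ℕ) : ℝ) * V a r X) j = 1 := by
      simp [Pool.Agent.Q25.UReg.pois]
    rw [e1, e2, mul_one] at h7
    exact h7

end Pool.Agent.Results.MP_391708_nt.UniformProgressions
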